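import Mathlib

/-!
# The v-number of a squarefree monomial ideal can exceed the depth

Let `Δ` be the disjoint union of two boundaries of simplices with `d + 1` vertices each, `d ≥ 2`, and `I` its
Stanley-Reisner ideal, in `2 d + 2` variables.  Then `depth (R / I) = 1` and `v (I) = d`.
-/

set_option autoImplicit false

namespace Pool.Agent.Results.MP_d06a13_ag.DepthOneVNumber

open MvPolynomial Pointwise

/-- A squarefree monomial ideal: a proper ideal generated by products of distinct variables. -/
def IsSquarefreeMonomial {σ K : Type*} [Field K] (I : Ideal (MvPolynomial σ K)) : Prop :=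
  I ≠ ⊤ ∧ ∃ S : Set (Finset σ),
    I = Ideal.span ((fun s : Finset σ => (∏ i ∈ s, X i : MvPolynomial σ K)) '' S)

/-- The v-number: the least degree `e` of a homogeneous `f` such that the colon ideal `(I : f)` is an
associated prime of `R / I` (it would be `⊤` if there were no such `f`). -/
noncomputable def vnumber {σ K : Type*} [Field K] (I : Ideal (MvPolynomial σ K)) : ℕ∞ :=
  sInf {v : ℕ∞ | ∃ e : ℕ, v = e ∧ ∃ f : MvPolynomial σ K, f.IsHomogeneous e ∧
    ∃ p ∈ associatedPrimes (MvPolynomial σ K) (MvPolynomial σ K ⧸ I), ∀ g, g ∈ p ↔ g * f ∈ I}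

/-- The depth of `R / I` with respect to the homogeneous maximal ideal: the supremum of the lengths of the
`R / I`-regular sequences in the ideal generated by the variables. -/
noncomputable def depth {σ K : Type*} [Field K] (I : Ideal (MvPolynomial σ K)) : ℕ∞ :=
  sSup {v : ℕ∞ | ∃ rs : List (MvPolynomial σ K), v = rs.length ∧
    (∀ r ∈ rs, r ∈ Ideal.span (Set.range (X : σ → MvPolynomial σ K))) ∧
    RingTheory.Sequence.IsRegular (MvPolynomial σ K ⧸ I) rs}

section

variable {σ K : Type*} [DecidableEq σ] [Field K]

/-- setting the variables outside `F` to zero -/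
noncomputable def rho (F : Finset σ) : MvPolynomial σ K →ₐ[K] MvPolynomial σ K :=
  aeval (fun i => if i ∈ F then X i else 0)

lemma rho_X (F : Finset σ) (i : σ) : rho (K := K) F (X i) = if i ∈ F then X i else 0 := by
  simp [rho]

lemma rho_monomial (F : Finset σ) (s : σ →₀ ℕ) (c : K) :
    rho F (monomial s c) = if s.support ⊆ F then monomial s c else 0 := by
  rw [rho, aeval_monomial]
  split_ifs with h
  · rw [MvPolynomial.monomial_eq, algebraMap_eq]
    congr 1
    refine Finsupp.prod_congr fun i hi => ?_
    rw [if_pos (h hi)]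
  · obtain ⟨i, hi, hiF⟩ := Finset.not_subset.mp h
    have : (s.prod fun i k => (if i ∈ F then (X i : MvPolynomial σ K) else 0) ^ k) = 0 := by
      refine Finset.prod_eq_zero hi ?_
      change (if i ∈ F then (X i : MvPolynomial σ K) else 0) ^ s i = 0
      rw [if_neg hiF, zero_pow (Finsupp.mem_support_iff.mp hi)]
    rw [this, mul_zero]

lemma coeff_rho (F : Finset σ) (f : MvPolynomial σ K) (s : σ →₀ ℕ) :
    coeff s (rho F f) = if s.support ⊆ F then coeff s f else 0 := by
  induction f using MvPolynomial.induction_on' with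
  | monomial t c =>
    rw [rho_monomial]
    by_cases h : t.support ⊆ F
    · rw [if_pos h, coeff_monomial]
      by_cases h2 : t = s
      · subst h2; simp [h]
      · simp [h2]
    · rw [if_neg h, coeff_zero, coeff_monomial]
      by_cases h2 : t = s
      · subst h2; simp [h]
      · simp [h2]
  | add p q hp hq =>
    rw [map_add, coeff_add, hp, hq, coeff_add]
    split_ifs <;> simp

lemma rho_eq_zero_iff (F : Finset σ) (f : MvPolynomial σ K) :
    rho F f = 0 ↔ ∀ s ∈ f.support, ¬ s.support ⊆ F := by
  constructor
  · intro h s hs hF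
    have := congrArg (coeff s) h
    rw [coeff_rho, if_pos hF, coeff_zero] at this
    exact mem_support_iff.mp hs this
  · intro h
    ext s
    rw [coeff_rho, coeff_zero]
    split_ifs with hF
    · by_contra hne
      exact h s (mem_support_iff.mpr hne) hF
    · rfl

lemma rho_rho (F G : Finset σ) (h : F ⊆ G) (f : MvPolynomial σ K) :
    rho F (rho G f) = rho F f := by
  ext s
  rw [coeff_rho, coeff_rho, coeff_rho]
  split_ifs with h1 h2
  · rfl
  · exact absurd (h1.trans h) h2
  · rfl

lemma coeff_zero_rho (F : Finset σ) (f : MvPolynomial σ K) :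
    coeff 0 (rho F f) = coeff 0 f := by
  rw [coeff_rho, if_pos (by simp)]

/-- the exponent of the product of the variables in `F` -/
noncomputable def ind (F : Finset σ) : σ →₀ ℕ := Finsupp.indicator F (fun _ _ => 1)

lemma ind_apply (F : Finset σ) (i : σ) : ind F i = if i ∈ F then 1 else 0 := by
  simp [ind, Finsupp.indicator_apply]

lemma support_ind (F : Finset σ) : (ind F).support = F := by
  ext i
  rw [Finsupp.mem_support_iff, ind_apply]
  split_ifs with h <;> simp [h]

lemma prod_X (F : Finset σ) : (∏ i ∈ F, X i : MvPolynomial σ K) = monomial (ind F) 1 := by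
  rw [MvPolynomial.monomial_eq, C_1, one_mul, Finsupp.prod, support_ind]
  refine Finset.prod_congr rfl fun i hi => ?_
  rw [ind_apply, if_pos hi, pow_one]

lemma ind_le_iff (F : Finset σ) (s : σ →₀ ℕ) : ind F ≤ s ↔ F ⊆ s.support := by
  constructor
  · intro h i hi
    have := h i
    rw [ind_apply, if_pos hi] at this
    exact Finsupp.mem_support_iff.mpr (by omega)
  · intro h i
    rw [ind_apply]
    split_ifs with hi
    · have := Finsupp.mem_support_iff.mp (h hi)
      omega
    · exact Nat.zero_le _

variable (K) in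
/-- The Stanley-Reisner ideal of the disjoint union of the boundaries of the simplices on `A` and `B`. -/
noncomputable def SR (A B : Finset σ) : Ideal (MvPolynomial σ K) :=
  Ideal.span ((fun s : Finset σ => (∏ i ∈ s, X i : MvPolynomial σ K)) ''
    ({A, B} ∪ {s | ∃ i ∈ A, ∃ j ∈ B, s = {i, j}}))

lemma mem_SR_iff (A B : Finset σ) (f : MvPolynomial σ K) :
    f ∈ SR K A B ↔ ∀ s ∈ f.support, A ⊆ s.support ∨ B ⊆ s.support ∨
      ∃ i ∈ A, ∃ j ∈ B, i ∈ s.support ∧ j ∈ s.support := by
  have h : SR K A B = Ideal.span ((fun s => monomial s (1 : K)) ''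
      (ind '' ({A, B} ∪ {s | ∃ i ∈ A, ∃ j ∈ B, s = {i, j}}))) := by
    rw [SR, Set.image_image]
    congr 1
    exact Set.image_congr fun s _ => prod_X s
  rw [h, mem_ideal_span_monomial_image]
  refine forall₂_congr fun s _ => ?_
  constructor
  · rintro ⟨_, ⟨F, hF, rfl⟩, hle⟩
    rw [ind_le_iff] at hle
    rcases hF with (rfl | rfl) | ⟨i, hi, j, hj, rfl⟩
    · exact Or.inl hle
    · exact Or.inr (Or.inl hle)
    · exact Or.inr (Or.inr ⟨i, hi, j, hj, hle (by simp), hle (by simp)⟩)
  · rintro (h | h | ⟨i, hi, j, hj, h1, h2⟩)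
    · exact ⟨_, ⟨A, Or.inl (Or.inl rfl), rfl⟩, (ind_le_iff _ _).mpr h⟩
    · exact ⟨_, ⟨B, Or.inl (Or.inr rfl), rfl⟩, (ind_le_iff _ _).mpr h⟩
    · refine ⟨_, ⟨{i, j}, Or.inr ⟨i, hi, j, hj, rfl⟩, rfl⟩, (ind_le_iff _ _).mpr ?_⟩
      intro x hx
      simp only [Finset.mem_insert, Finset.mem_singleton] at hx
      rcases hx with rfl | rfl
      · exact h1
      · exact h2

variable [Fintype σ]

/-- The two blocks: a partition of the variables into two sets with at least two elements. -/
structure Blocks (A B : Finset σ) : Prop where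
  disj : Disjoint A B
  cover : A ∪ B = Finset.univ
  hA : 2 ≤ A.card
  hB : 2 ≤ B.card

lemma Blocks.symm {A B : Finset σ} (h : Blocks A B) : Blocks B A :=
  ⟨h.disj.symm, by rw [Finset.union_comm]; exact h.cover, h.hB, h.hA⟩

omit [Fintype σ] in
lemma SR_symm (A B : Finset σ) : SR K A B = SR K B A := by
  ext f
  rw [mem_SR_iff, mem_SR_iff]
  refine forall₂_congr fun s _ => ?_
  constructor
  · rintro (h | h | ⟨i, hi, j, hj, h1, h2⟩)
    · exact Or.inr (Or.inl h)
    · exact Or.inl h
    · exact Or.inr (Or.inr ⟨j, hj, i, hi, h2, h1⟩)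
  · rintro (h | h | ⟨i, hi, j, hj, h1, h2⟩)
    · exact Or.inr (Or.inl h)
    · exact Or.inl h
    · exact Or.inr (Or.inr ⟨j, hj, i, hi, h2, h1⟩)

/-- the facets are the sets `A \ {i}` and `B \ {j}` -/
lemma mem_SR_iff_rho {A B : Finset σ} (hb : Blocks A B) (f : MvPolynomial σ K) :
    f ∈ SR K A B ↔ (∀ i ∈ A, rho (A.erase i) f = 0) ∧ (∀ j ∈ B, rho (B.erase j) f = 0) := by
  rw [mem_SR_iff]
  constructor
  · intro h
    constructor
    · intro i hi
      rw [rho_eq_zero_iff]
      intro s hs hsub
      rcases h s hs with h1 | h1 | ⟨a, ha, b, hb', h1, h2⟩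
      · exact Finset.notMem_erase i A (hsub (h1 hi))
      · obtain ⟨j, hj⟩ : B.Nonempty := Finset.card_pos.mp (by have := hb.hB; omega)
        exact Finset.disjoint_left.mp hb.disj (Finset.mem_of_mem_erase (hsub (h1 hj))) hj
      · exact Finset.disjoint_left.mp hb.disj (Finset.mem_of_mem_erase (hsub h2)) hb'
    · intro j hj
      rw [rho_eq_zero_iff]
      intro s hs hsub
      rcases h s hs with h1 | h1 | ⟨a, ha, b, hb', h1, h2⟩
      · obtain ⟨i, hi⟩ : A.Nonempty := Finset.card_pos.mp (by have := hb.hA; omega)
        exact Finset.disjoint_left.mp hb.disj hi (Finset.mem_of_mem_erase (hsub (h1 hi)))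
      · exact Finset.notMem_erase j B (hsub (h1 hj))
      · exact Finset.disjoint_left.mp hb.disj ha (Finset.mem_of_mem_erase (hsub h1))
  · rintro ⟨h1, h2⟩ s hs
    by_contra hcon
    push Not at hcon
    obtain ⟨hA, hB, hAB⟩ := hcon
    obtain ⟨i, hi, his⟩ := Finset.not_subset.mp hA
    obtain ⟨j, hj, hjs⟩ := Finset.not_subset.mp hB
    by_cases hcase : ∃ a ∈ A, a ∈ s.support
    · obtain ⟨a, ha, has⟩ := hcase
      refine (rho_eq_zero_iff _ _).mp (h1 i hi) s hs ?_
      intro x hx
      have hxA : x ∈ A := by
        have : x ∈ A ∪ B := by rw [hb.cover]; exact Finset.mem_univ x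
        rcases Finset.mem_union.mp this with h | h
        · exact h
        · exact absurd hx (hAB a ha x h has)
      exact Finset.mem_erase.mpr ⟨fun h => his (h ▸ hx), hxA⟩
    · push Not at hcase
      refine (rho_eq_zero_iff _ _).mp (h2 j hj) s hs ?_
      intro x hx
      have hxB : x ∈ B := by
        have : x ∈ A ∪ B := by rw [hb.cover]; exact Finset.mem_univ x
        rcases Finset.mem_union.mp this with h | h
        · exact absurd hx (hcase x h)
        · exact h
      exact Finset.mem_erase.mpr ⟨fun h => hjs (h ▸ hx), hxB⟩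

lemma one_not_mem {A B : Finset σ} (hb : Blocks A B) : (1 : MvPolynomial σ K) ∉ SR K A B := by
  intro h
  rw [mem_SR_iff_rho hb] at h
  obtain ⟨i, hi⟩ : A.Nonempty := Finset.card_pos.mp (by have := hb.hA; omega)
  have := h.1 i hi
  rw [map_one] at this
  exact one_ne_zero this

/-- the product of the variables in `A \ {i}` is not in the ideal -/
lemma prod_not_mem {A B : Finset σ} (hb : Blocks A B) {i : σ} (hi : i ∈ A) :
    (monomial (ind (A.erase i)) 1 : MvPolynomial σ K) ∉ SR K A B := by
  intro h
  rw [mem_SR_iff_rho hb] at h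
  have := h.1 i hi
  rw [rho_monomial, support_ind, if_pos (Finset.Subset.refl _)] at this
  exact one_ne_zero ((monomial_eq_zero).mp this)

/-- a regular element has nonzero restriction to every facet -/
lemma rho_ne_zero {A B : Finset σ} (hb : Blocks A B) {a : MvPolynomial σ K}
    (ha : ∀ g, a * g ∈ SR K A B → g ∈ SR K A B) {i : σ} (hi : i ∈ A) :
    rho (A.erase i) a ≠ 0 := by
  intro h0
  apply prod_not_mem (K := K) hb hi
  apply ha
  rw [mem_SR_iff_rho hb]
  constructor
  · intro i' hi'
    rw [map_mul]
    by_cases hii : i' = i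
    · rw [hii, h0, zero_mul]
    · rw [rho_monomial, support_ind, if_neg, mul_zero]
      intro hsub
      have := hsub (Finset.mem_erase.mpr ⟨hii, hi'⟩)
      exact Finset.notMem_erase i' A this
  · intro j hj
    rw [map_mul, rho_monomial, support_ind, if_neg, mul_zero]
    intro hsub
    obtain ⟨k, hk⟩ : (A.erase i).Nonempty := by
      rw [← Finset.card_pos, Finset.card_erase_of_mem hi]
      have := hb.hA
      omega
    exact Finset.disjoint_left.mp hb.disj (Finset.mem_of_mem_erase hk)
      (Finset.mem_of_mem_erase (hsub hk))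

omit [DecidableEq σ] [Fintype σ] in
lemma mem_span_X_iff (f : MvPolynomial σ K) :
    f ∈ Ideal.span (Set.range (X : σ → MvPolynomial σ K)) ↔ coeff 0 f = 0 := by
  rw [← Set.image_univ, mem_ideal_span_X_image]
  constructor
  · intro h
    by_contra hne
    obtain ⟨i, _, hi⟩ := h 0 (mem_support_iff.mpr hne)
    simp at hi
  · intro h m hm
    by_contra hcon
    push Not at hcon
    have : m = 0 := by
      ext i
      simpa using hcon i (Set.mem_univ i)
    rw [this, mem_support_iff] at hm
    exact hm h

omit [DecidableEq σ] [Fintype σ] in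
lemma smul_mk (I : Ideal (MvPolynomial σ K)) (a g : MvPolynomial σ K) :
    a • (Ideal.Quotient.mk I g) = Ideal.Quotient.mk I (a * g) := rfl

/-- If `a` and `b` have no constant term, `a` is regular modulo the ideal, then `b` is a zero divisor modulo
the ideal and `a`. -/
lemma key {A B : Finset σ} (hb : Blocks A B) {a b : MvPolynomial σ K}
    (ha0 : coeff 0 a = 0) (hb0 : coeff 0 b = 0)
    (ha : ∀ g, a * g ∈ SR K A B → g ∈ SR K A B)
    (hreg : ∀ g, (∃ w, b * g - a * w ∈ SR K A B) → ∃ w, g - a * w ∈ SR K A B) : False := by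
  obtain ⟨i, hi⟩ : A.Nonempty := Finset.card_pos.mp (by have := hb.hA; omega)
  obtain ⟨j, hj⟩ : B.Nonempty := Finset.card_pos.mp (by have := hb.hB; omega)
  have hai := rho_ne_zero hb ha hi
  have haj : rho (B.erase j) a ≠ 0 := by
    refine rho_ne_zero hb.symm (fun g hg => ?_) hj
    rw [SR_symm] at hg ⊢
    exact ha g hg
  -- polynomials without constant term, restricted to disjoint sets
  have hdis : ∀ (F : Finset σ), F ⊆ B → ∀ c : MvPolynomial σ K, coeff 0 c = 0 →
      rho F (rho A c) = 0 := by
    intro F hF c hc
    ext s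
    rw [coeff_rho, coeff_rho, coeff_zero]
    split_ifs with h1 h2
    · have hs : s = 0 := by
        rw [← Finsupp.support_eq_empty, Finset.eq_empty_iff_forall_notMem]
        intro x hx
        exact Finset.disjoint_left.mp hb.disj (h2 hx) (hF (h1 hx))
      rw [hs, hc]
    · rfl
    · rfl
  obtain ⟨w, hw⟩ := hreg (rho A a) ⟨rho A b, by
    rw [mem_SR_iff_rho hb]
    constructor
    · intro i' hi'
      rw [map_sub, map_mul, map_mul, rho_rho _ _ (Finset.erase_subset _ _),
        rho_rho _ _ (Finset.erase_subset _ _)]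
      ring
    · intro j' hj'
      rw [map_sub, map_mul, map_mul, hdis _ (Finset.erase_subset _ _) a ha0,
        hdis _ (Finset.erase_subset _ _) b hb0]
      ring⟩
  rw [mem_SR_iff_rho hb] at hw
  have h1 := hw.1 i hi
  have h2 := hw.2 j hj
  rw [map_sub, map_mul, rho_rho _ _ (Finset.erase_subset _ _)] at h1
  rw [map_sub, map_mul, hdis _ (Finset.erase_subset _ _) a ha0, zero_sub, neg_eq_zero] at h2
  have h3 : rho (A.erase i) w = 1 := by
    have h4 : rho (A.erase i) a * (1 - rho (A.erase i) w) = 0 := by
      rw [← h1]; ring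
    rcases mul_eq_zero.mp h4 with h | h
    · exact absurd h hai
    · exact (sub_eq_zero.mp h).symm
  have h4 : rho (B.erase j) w = 0 := by
    rcases mul_eq_zero.mp h2 with h | h
    · exact absurd h haj
    · exact h
  have h5 := coeff_zero_rho (A.erase i) w
  have h6 := coeff_zero_rho (B.erase j) w
  rw [h3] at h5
  rw [h4] at h6
  rw [← h6] at h5
  simp at h5

/-- the depth is one -/
lemma depth_SR {A B : Finset σ} (hb : Blocks A B) : depth (SR K A B) = 1 := by
  apply le_antisymm
  · refine sSup_le ?_
    rintro _ ⟨rs, rfl, hmem, hreg⟩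
    rcases rs with _ | ⟨a, _ | ⟨b, rs⟩⟩
    · simp
    · simp
    · exfalso
      have ha0 := (mem_span_X_iff a).mp (hmem a (by simp))
      have hb0 := (mem_span_X_iff b).mp (hmem b (by simp))
      rw [RingTheory.Sequence.isRegular_cons_iff, RingTheory.Sequence.isRegular_cons_iff] at hreg
      obtain ⟨h1, h2, -⟩ := hreg
      refine key hb ha0 hb0 ?_ ?_
      · intro g hg
        rw [← Ideal.Quotient.eq_zero_iff_mem] at hg ⊢
        exact h1.right_eq_zero_of_smul hg
      · rintro g ⟨w, hw⟩
        have h3 : (Submodule.Quotient.mk (Ideal.Quotient.mk (SR K A B) g) :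
            QuotSMulTop a (MvPolynomial σ K ⧸ SR K A B)) = 0 := by
          refine h2.right_eq_zero_of_smul ?_
          rw [← Submodule.Quotient.mk_smul, Submodule.Quotient.mk_eq_zero,
            Submodule.mem_smul_pointwise_iff_exists]
          refine ⟨Ideal.Quotient.mk _ w, Submodule.mem_top, ?_⟩
          rw [smul_mk, smul_mk, eq_comm, Ideal.Quotient.mk_eq_mk_iff_sub_mem]
          exact hw
        rw [Submodule.Quotient.mk_eq_zero, Submodule.mem_smul_pointwise_iff_exists] at h3
        obtain ⟨y, -, hy⟩ := h3
        obtain ⟨w, rfl⟩ := Ideal.Quotient.mk_surjective y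
        refine ⟨w, ?_⟩
        rw [← Ideal.Quotient.mk_eq_mk_iff_sub_mem, ← hy, smul_mk]
  · have hz : ∀ g, (∑ i, X i : MvPolynomial σ K) * g ∈ SR K A B → g ∈ SR K A B := by
      have hrho : ∀ F : Finset σ, F.Nonempty → rho F (∑ i, X i : MvPolynomial σ K) ≠ 0 := by
        rintro F ⟨k, hk⟩ h
        have h2 := (rho_eq_zero_iff F _).mp h (Finsupp.single k 1) ?_
        · exact h2 ((Finsupp.support_single_subset).trans (by simpa using hk))
        · rw [mem_support_iff, coeff_sum]
          have : ∑ i : σ, coeff (Finsupp.single k 1) (X i : MvPolynomial σ K) = 1 := by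
            rw [Finset.sum_eq_single k]
            · simp
            · intro b _ hbk
              rw [coeff_X, if_neg]
              intro h
              exact hbk (Finsupp.single_left_injective one_ne_zero h)
            · simp
          rw [this]
          exact one_ne_zero
      intro g hg
      rw [mem_SR_iff_rho hb] at hg ⊢
      constructor
      · intro i hi
        have := hg.1 i hi
        rw [map_mul] at this
        refine (mul_eq_zero.mp this).resolve_left (hrho _ ?_)
        rw [← Finset.card_pos, Finset.card_erase_of_mem hi]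
        have := hb.hA
        omega
      · intro i hi
        have := hg.2 i hi
        rw [map_mul] at this
        refine (mul_eq_zero.mp this).resolve_left (hrho _ ?_)
        rw [← Finset.card_pos, Finset.card_erase_of_mem hi]
        have := hb.hB
        omega
    refine le_sSup ⟨[∑ i, X i], by simp, ?_, ?_⟩
    · intro r hr
      rw [List.mem_singleton] at hr
      rw [hr]
      exact Ideal.sum_mem _ fun i _ => Ideal.subset_span ⟨i, rfl⟩
    · rw [RingTheory.Sequence.isRegular_cons_iff]
      constructor
      · rw [isSMulRegular_iff_right_eq_zero_of_smul]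
        intro x hx
        obtain ⟨g, rfl⟩ := Ideal.Quotient.mk_surjective x
        rw [Ideal.Quotient.eq_zero_iff_mem]
        apply hz
        rw [← Ideal.Quotient.eq_zero_iff_mem]
        exact hx
      · have : Nontrivial (QuotSMulTop (∑ i, X i : MvPolynomial σ K)
            (MvPolynomial σ K ⧸ SR K A B)) := by
          rw [Submodule.Quotient.nontrivial_iff]
          intro htop
          have h1 : (Ideal.Quotient.mk (SR K A B) 1) ∈
              ((∑ i, X i : MvPolynomial σ K) • (⊤ : Submodule (MvPolynomial σ K)
                (MvPolynomial σ K ⧸ SR K A B))) := by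
            rw [htop]; exact Submodule.mem_top
          rw [Submodule.mem_smul_pointwise_iff_exists] at h1
          obtain ⟨y, -, hy⟩ := h1
          obtain ⟨w, rfl⟩ := Ideal.Quotient.mk_surjective y
          have h2 : (∑ i, X i : MvPolynomial σ K) * w - 1 ∈ SR K A B := by
            rw [← Ideal.Quotient.mk_eq_mk_iff_sub_mem]
            exact hy
          obtain ⟨i, hi⟩ : A.Nonempty := Finset.card_pos.mp (by have := hb.hA; omega)
          have h3 := ((mem_SR_iff_rho hb _).mp h2).1 i hi
          have h4 := congrArg (coeff 0) h3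
          rw [coeff_zero_rho, coeff_zero, ← constantCoeff_eq] at h4
          simp at h4
        exact RingTheory.Sequence.IsRegular.nil _ _

omit [DecidableEq σ] [Fintype σ] in
/-- the support of a homogeneous polynomial of degree `e` consists of exponents with at most `e` variables -/
lemma card_support_le {f : MvPolynomial σ K} {e : ℕ} (hf : f.IsHomogeneous e) {s : σ →₀ ℕ}
    (hs : s ∈ f.support) : s.support.card ≤ e := by
  have h1 : s.degree = e := by
    have := hf (mem_support_iff.mp hs)
    rw [Finsupp.degree_eq_weight_one]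
    exact this
  rw [← h1, Finsupp.degree_apply]
  calc s.support.card = ∑ i ∈ s.support, 1 := by simp
    _ ≤ ∑ i ∈ s.support, s i := Finset.sum_le_sum fun i hi => by
      have := Finsupp.mem_support_iff.mp hi
      omega

omit [Fintype σ] in
lemma support_add_single (s : σ →₀ ℕ) (j : σ) :
    (Finsupp.single j 1 + s).support = insert j s.support := by
  ext x
  simp only [Finsupp.mem_support_iff, Finsupp.add_apply, Finset.mem_insert, Finsupp.single_apply]
  by_cases h : j = x
  · subst h; simp
  · rw [if_neg h]
    have : x ≠ j := fun h' => h h'.symm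
    simp [this]

/-- the lower bound of the v-number, when the colon ideal contains the variables in `B` -/
lemma lower_aux {A B : Finset σ} (hb : Blocks A B) {f : MvPolynomial σ K} {e : ℕ}
    (hf : f.IsHomogeneous e) (hfI : f ∉ SR K A B) (hB : ∀ j ∈ B, X j * f ∈ SR K A B)
    {i₀ : σ} (hi₀ : i₀ ∈ A) (hA : X i₀ * f ∈ SR K A B) : A.card ≤ e + 1 := by
  rw [mem_SR_iff] at hfI
  push Not at hfI
  obtain ⟨s, hs, hsA, hsB, hsAB⟩ := hfI
  have hmul : ∀ j : σ, X j * f ∈ SR K A B → A ⊆ insert j s.support ∨ B ⊆ insert j s.support ∨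
      ∃ a ∈ A, ∃ b ∈ B, a ∈ insert j s.support ∧ b ∈ insert j s.support := by
    intro j hj
    rw [mem_SR_iff] at hj
    have := hj (Finsupp.single j 1 + s) (by
      rw [mem_support_iff, coeff_X_mul]
      exact mem_support_iff.mp hs)
    rwa [support_add_single] at this
  have hdisj := Finset.disjoint_left.mp hb.disj
  have hex : ∃ a ∈ A, a ∈ s.support := by
    by_contra hno
    push Not at hno
    have hall : ∀ j ∈ B, B ⊆ insert j s.support := by
      intro j hj
      rcases hmul j (hB j hj) with h | h | ⟨a, ha, b, hb', h1, h2⟩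
      · exfalso
        apply hsA
        intro x hx
        rcases Finset.mem_insert.mp (h hx) with h' | h'
        · exact absurd (h' ▸ hj) (hdisj hx)
        · exact h'
      · exact h
      · exfalso
        rcases Finset.mem_insert.mp h1 with h' | h'
        · exact hdisj ha (h' ▸ hj)
        · exact hno a ha h'
    apply hsB
    intro j hj
    obtain ⟨j', hj', hne⟩ := Finset.exists_mem_ne (s := B) (by have := hb.hB; omega) j
    rcases Finset.mem_insert.mp (hall j' hj' hj) with h' | h'
    · exact absurd h'.symm hne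
    · exact h'
  obtain ⟨a, ha, has⟩ := hex
  rcases hmul i₀ hA with h | h | ⟨a', ha', b, hb', h1, h2⟩
  · have h3 : A.erase i₀ ⊆ s.support := by
      intro x hx
      rcases Finset.mem_insert.mp (h (Finset.mem_of_mem_erase hx)) with h' | h'
      · exact absurd h' (Finset.ne_of_mem_erase hx)
      · exact h'
    have h4 := (Finset.card_le_card h3).trans (card_support_le hf hs)
    rw [Finset.card_erase_of_mem hi₀] at h4
    omega
  · exfalso
    apply hsB
    intro x hx
    rcases Finset.mem_insert.mp (h hx) with h' | h'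
    · exact absurd hx (hdisj (h' ▸ hi₀))
    · exact h'
  · exfalso
    rcases Finset.mem_insert.mp h2 with h' | h'
    · exact hdisj hi₀ (h' ▸ hb')
    · exact hsAB a ha b hb' has h'

/-- the colon ideal of the product of the variables in `A \ {i}` -/
lemma colon_prod {A B : Finset σ} (hb : Blocks A B) {i : σ} (hi : i ∈ A) (g : MvPolynomial σ K) :
    g ∈ RingHom.ker (rho (K := K) (A.erase i)) ↔ g * monomial (ind (A.erase i)) 1 ∈ SR K A B := by
  rw [RingHom.mem_ker, mem_SR_iff_rho hb]
  constructor
  · intro h
    constructor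
    · intro i' hi'
      rw [map_mul]
      by_cases hii : i' = i
      · rw [hii, h, zero_mul]
      · rw [rho_monomial, support_ind, if_neg, mul_zero]
        intro hsub
        have := hsub (Finset.mem_erase.mpr ⟨hii, hi'⟩)
        exact Finset.notMem_erase i' A this
    · intro j hj
      rw [map_mul, rho_monomial, support_ind, if_neg, mul_zero]
      intro hsub
      obtain ⟨k, hk⟩ : (A.erase i).Nonempty := by
        rw [← Finset.card_pos, Finset.card_erase_of_mem hi]
        have := hb.hA
        omega
      exact Finset.disjoint_left.mp hb.disj (Finset.mem_of_mem_erase hk)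
        (Finset.mem_of_mem_erase (hsub hk))
  · intro h
    have h1 := h.1 i hi
    rw [map_mul, rho_monomial, support_ind, if_pos (Finset.Subset.refl _)] at h1
    refine (mul_eq_zero.mp h1).resolve_right ?_
    intro h2
    exact one_ne_zero ((monomial_eq_zero).mp h2)

/-- the v-number is `d` if both blocks have `d + 1` elements -/
lemma vnumber_SR {A B : Finset σ} (hb : Blocks A B) {d : ℕ} (hA : A.card = d + 1)
    (hB : B.card = d + 1) : vnumber (SR K A B) = d := by
  apply le_antisymm
  · obtain ⟨i, hi⟩ : A.Nonempty := Finset.card_pos.mp (by have := hb.hA; omega)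
    refine sInf_le ⟨d, rfl, monomial (ind (A.erase i)) 1, ?_, RingHom.ker (rho (K := K) (A.erase i)),
      ?_, colon_prod hb hi⟩
    · refine isHomogeneous_monomial _ ?_
      rw [Finsupp.degree_apply, support_ind]
      have : ∑ x ∈ A.erase i, ind (A.erase i) x = ∑ x ∈ A.erase i, 1 :=
        Finset.sum_congr rfl fun x hx => by rw [ind_apply, if_pos hx]
      rw [this, Finset.sum_const, Finset.card_erase_of_mem hi, hA]
      simp
    · rw [AssociatedPrimes.mem_iff, isAssociatedPrime_iff]
      refine ⟨RingHom.ker_isPrime _, Ideal.Quotient.mk _ (monomial (ind (A.erase i)) 1), ?_⟩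
      ext g
      rw [Submodule.mem_colon_singleton, Submodule.mem_bot, smul_mk, Ideal.Quotient.eq_zero_iff_mem]
      exact colon_prod hb hi g
  · refine le_sInf ?_
    rintro _ ⟨e, rfl, f, hf, p, hp, hpf⟩
    have hprime : p.IsPrime := hp.isPrime
    have hfI : f ∉ SR K A B := by
      intro h
      apply hprime.ne_top
      rw [Ideal.eq_top_iff_one, hpf, one_mul]
      exact h
    have hle : SR K A B ≤ p := fun g hg => (hpf g).mpr (Ideal.mul_mem_right _ _ hg)
    have hblock : ∀ {A B : Finset σ}, SR K A B ≤ p → (∀ j ∈ B, X j ∈ p) ∨ (∀ i ∈ A, X i ∈ p) := by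
      intro A B hle
      by_contra hcon
      push Not at hcon
      obtain ⟨⟨j, hj, hjp⟩, ⟨i, hi, hip⟩⟩ := hcon
      have h1 : (X i * X j : MvPolynomial σ K) ∈ SR K A B := by
        by_cases hij : i = j
        · rw [mem_SR_iff]
          intro s hs
          subst hij
          have h2 : (X i * X i : MvPolynomial σ K) = monomial (Finsupp.single i 2) 1 := by
            rw [← sq, X_pow_eq_monomial]
          rw [h2] at hs
          have hs2 := Finset.mem_singleton.mp (support_monomial_subset hs)
          rw [hs2]
          exact Or.inr (Or.inr ⟨i, hi, i, hj, by simp, by simp⟩)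
        · have h2 : (X i * X j : MvPolynomial σ K) = ∏ k ∈ ({i, j} : Finset σ), X k := by
            rw [Finset.prod_pair hij]
          rw [h2]
          exact Ideal.subset_span ⟨{i, j}, Or.inr ⟨i, hi, j, hj, rfl⟩, rfl⟩
      rcases hprime.mem_or_mem (hle h1) with h | h
      · exact hip h
      · exact hjp h
    have hprodA : (∏ i ∈ A, X i : MvPolynomial σ K) ∈ p :=
      hle (Ideal.subset_span ⟨A, Or.inl (Or.inl rfl), rfl⟩)
    have hprodB : (∏ i ∈ B, X i : MvPolynomial σ K) ∈ p :=
      hle (Ideal.subset_span ⟨B, Or.inl (Or.inr rfl), rfl⟩)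
    have hle' : d + 1 ≤ e + 1 := by
      rcases hblock hle with h | h
      · obtain ⟨i₀, hi₀, hi₀p⟩ := (hprime.prod_mem_iff).mp hprodA
        have := lower_aux hb hf hfI (fun j hj => (hpf _).mp (h j hj)) hi₀ ((hpf _).mp hi₀p)
        omega
      · obtain ⟨i₀, hi₀, hi₀p⟩ := (hprime.prod_mem_iff).mp hprodB
        rw [SR_symm] at hfI
        have := lower_aux hb.symm hf hfI (fun j hj => by
          rw [SR_symm]; exact (hpf _).mp (h j hj)) hi₀ (by
          rw [SR_symm]; exact (hpf _).mp hi₀p)
        omega
    exact_mod_cast Nat.le_of_succ_le_succ hle'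

end

/-- For every field `K` and every `d ≥ 2` there is a squarefree monomial ideal `I` in the polynomial ring in
`2 d + 2` variables over `K` with `depth (R / I) = 1` and `v (I) = d`.  So `v (I) > depth (R / I)`, and the
difference can be arbitrarily large. -/
theorem result (K : Type*) [Field K] (d : ℕ) (hd : 2 ≤ d) :
    ∃ I : Ideal (MvPolynomial (Fin (2 * d + 2)) K), IsSquarefreeMonomial I ∧
      depth I = 1 ∧ vnumber I = d ∧ depth I < vnumber I := by
  classical
  let A : Finset (Fin (2 * d + 2)) := Finset.univ.filter (fun i => (i : ℕ) < d + 1)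
  let B : Finset (Fin (2 * d + 2)) := Finset.univ.filter (fun i => ¬ (i : ℕ) < d + 1)
  have hA : A.card = d + 1 := by
    have := Fin.card_filter_val_lt (n := 2 * d + 2) (m := d + 1)
    simp only [A]
    rw [this]
    omega
  have hB : B.card = d + 1 := by
    have h1 := Finset.card_filter_add_card_filter_not (s := (Finset.univ : Finset (Fin (2 * d + 2))))
      (fun i => (i : ℕ) < d + 1)
    rw [Finset.card_univ, Fintype.card_fin] at h1
    have h2 : A.card + B.card = 2 * d + 2 := h1
    omega
  have hb : Blocks A B := by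
    refine ⟨Finset.disjoint_filter_filter_not _ _ _, Finset.filter_union_filter_not_eq _ _, ?_, ?_⟩ <;> omega
  have h1 := depth_SR (K := K) hb
  have h2 := vnumber_SR (K := K) hb hA hB
  refine ⟨SR K A B, ⟨?_, _, rfl⟩, h1, h2, ?_⟩
  · intro htop
    apply one_not_mem (K := K) hb
    rw [htop]
    trivial
  · rw [h1, h2]
    exact_mod_cast hd

end Pool.Agent.Results.MP_d06a13_ag.DepthOneVNumber
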